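import Mathlib

set_option autoImplicit false

open Finset
open scoped Classical

namespace Pool.Agent.Results.MP_f5b231_co.ForcingEdgeBound

variable {V : Type} [Fintype V]

/-- `M` is (the edge set of) a perfect matching of `G`: every member is an edge of `G` and every
vertex lies in exactly one member. -/
def IsPerfMatching (G : SimpleGraph V) (M : Finset (Sym2 V)) : Prop :=
  (∀ e ∈ M, e ∈ G.edgeSet) ∧ ∀ v : V, ∃! e, e ∈ M ∧ v ∈ e

/-- `S` is a forcing set of the perfect matching `M`: a subset of `M` such that `M` is the only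
perfect matching of `G` containing `S`. -/
def IsForcing (G : SimpleGraph V) (M S : Finset (Sym2 V)) : Prop :=
  S ⊆ M ∧ ∀ M', IsPerfMatching G M' → S ⊆ M' → M' = M

/-- The forcing number of the perfect matching `M`: the least size of a forcing set. -/
noncomputable def forcingNumber (G : SimpleGraph V) (M : Finset (Sym2 V)) : ℕ :=
  sInf {k | ∃ S, IsForcing G M S ∧ S.card = k}

/-- The maximum forcing number of `G`: the largest forcing number of a perfect matching. -/
noncomputable def maxForcing (G : SimpleGraph V) : ℕ :=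
  sSup {k | ∃ M, IsPerfMatching G M ∧ forcingNumber G M = k}

omit [Fintype V] in
theorem pm_eq {G : SimpleGraph V} {M M' : Finset (Sym2 V)} (h : IsPerfMatching G M)
    (h' : IsPerfMatching G M') (hs : M ⊆ M') : M' = M := by
  apply le_antisymm _ hs
  intro e he
  have : ∃ v, v ∈ e := by
    induction e using Sym2.ind with
    | _ x y => exact ⟨x, Sym2.mem_mk_left x y⟩
  obtain ⟨v, hv⟩ := this
  obtain ⟨g, ⟨hg, hvg⟩, _⟩ := h.2 v
  have := (h'.2 v).unique ⟨he, hv⟩ ⟨hs hg, hvg⟩
  rw [this]; exact hg

/-- the members of `S` other than `e` that contain a neighbour of `a e` -/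
noncomputable def out (G : SimpleGraph V) (a : Sym2 V → V) (S : Finset (Sym2 V)) (e : Sym2 V) :
    Finset (Sym2 V) :=
  S.filter (fun g => g ≠ e ∧ ∃ w, G.Adj (a e) w ∧ w ∈ g)

theorem greedy (G : SimpleGraph V) (M : Finset (Sym2 V)) (hM : IsPerfMatching G M)
    (a : Sym2 V → V) (ha : ∀ e ∈ M, a e ∈ e) :
    ∀ (n : ℕ) (S : Finset (Sym2 V)), S.card = n → S ⊆ M → ∃ T ⊆ S,
      (∑ e ∈ S, 1 / (1 + ((out G a S e).card : ℝ))) ≤ T.card ∧
      ∀ M', IsPerfMatching G M' → M \ T ⊆ M' → T ⊆ M' := by
  intro n
  induction n using Nat.strong_induction_on with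
  | _ n ih =>
    intro S hn hS
    by_cases hne : S.Nonempty
    · obtain ⟨e, he, hmin⟩ := exists_min_image S (fun e => (out G a S e).card) hne
      set N := insert e (out G a S e) with hN
      have hNS : N ⊆ S := by
        intro g hg
        rw [hN, mem_insert] at hg
        rcases hg with rfl | hg
        · exact he
        · exact (mem_filter.1 hg).1
      have heN : e ∉ out G a S e := by
        intro h; exact (mem_filter.1 h).2.1 rfl
      have hNc : N.card = (out G a S e).card + 1 := card_insert_of_notMem heN
      have hlt : (S \ N).card < n := by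
        rw [← hn]
        apply card_lt_card
        rw [ssubset_iff_of_subset sdiff_subset]
        refine ⟨e, he, ?_⟩
        rw [mem_sdiff]
        intro h; exact h.2 (mem_insert_self _ _)
      obtain ⟨T, hTS, hTc, hTf⟩ := ih _ hlt (S \ N) rfl (sdiff_subset.trans hS)
      have heT : e ∉ T := by
        intro h
        exact (mem_sdiff.1 (hTS h)).2 (mem_insert_self _ _)
      refine ⟨insert e T, ?_, ?_, ?_⟩
      · intro g hg
        rw [mem_insert] at hg
        rcases hg with rfl | hg
        · exact he
        · exact (mem_sdiff.1 (hTS hg)).1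
      · rw [card_insert_of_notMem heT]
        push_cast
        have h1 : ∑ g ∈ S, 1 / (1 + ((out G a S g).card : ℝ)) =
            ∑ g ∈ S \ N, 1 / (1 + ((out G a S g).card : ℝ)) +
            ∑ g ∈ N, 1 / (1 + ((out G a S g).card : ℝ)) := (sum_sdiff hNS).symm
        have h2 : ∑ g ∈ S \ N, 1 / (1 + ((out G a S g).card : ℝ)) ≤
            ∑ g ∈ S \ N, 1 / (1 + ((out G a (S \ N) g).card : ℝ)) := by
          apply sum_le_sum
          intro g _
          have : (out G a (S \ N) g).card ≤ (out G a S g).card := by
            apply card_le_card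
            exact filter_subset_filter _ sdiff_subset
          have h3 : ((out G a (S \ N) g).card : ℝ) ≤ (out G a S g).card := by exact_mod_cast this
          gcongr
        have h3 : ∑ g ∈ N, 1 / (1 + ((out G a S g).card : ℝ)) ≤ 1 := by
          calc ∑ g ∈ N, 1 / (1 + ((out G a S g).card : ℝ)) ≤
              ∑ g ∈ N, 1 / (1 + ((out G a S e).card : ℝ)) := by
                apply sum_le_sum
                intro g hg
                have h3 : ((out G a S e).card : ℝ) ≤ (out G a S g).card := by
                  exact_mod_cast hmin g (hNS hg)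
                gcongr
            _ = 1 := by
                rw [sum_const, hNc, nsmul_eq_mul]
                push_cast
                field_simp
                ring
        linarith
      · intro M' hM' hsub
        have heM : e ∈ M := hS he
        have heM' : e ∈ M' := by
          obtain ⟨g, ⟨hg, hag⟩, _⟩ := hM'.2 (a e)
          have hgG := hM'.1 g hg
          -- the other end of g
          obtain ⟨w, rfl⟩ := hag
          rw [SimpleGraph.mem_edgeSet] at hgG
          by_cases hwe : w ∈ e
          · have hne : a e ≠ w := hgG.ne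
            have : e = s(a e, w) := (Sym2.mem_and_mem_iff hne).1 ⟨ha e heM, hwe⟩
            rw [this]; exact hg
          · obtain ⟨k, ⟨hk, hwk⟩, _⟩ := hM.2 w
            have hke : k ≠ e := by rintro rfl; exact hwe hwk
            have hkT : k ∉ insert e T := by
              rw [mem_insert]
              rintro (h | h)
              · exact hke h
              · have h1 := mem_sdiff.1 (hTS h)
                apply h1.2
                rw [hN, mem_insert]
                right
                exact mem_filter.2 ⟨h1.1, hke, w, hgG, hwk⟩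
            have hkM' : k ∈ M' := hsub (mem_sdiff.2 ⟨hk, hkT⟩)
            have h2 := (hM'.2 w).unique ⟨hkM', hwk⟩ ⟨hg, Sym2.mem_mk_right _ _⟩
            have h3 : a e ∈ k := by rw [h2]; exact Sym2.mem_mk_left _ _
            exact absurd ((hM.2 (a e)).unique ⟨hk, h3⟩ ⟨heM, ha e heM⟩) hke
        intro g hg
        rw [mem_insert] at hg
        rcases hg with rfl | hg
        · exact heM'
        · apply hTf M' hM' _ hg
          intro k hk
          rw [mem_sdiff] at hk
          by_cases hke : k = e
          · rw [hke]; exact heM'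
          · apply hsub
            rw [mem_sdiff, mem_insert]
            exact ⟨hk.1, fun h => h.elim hke hk.2⟩
    · rw [not_nonempty_iff_eq_empty] at hne
      subst hne
      exact ⟨∅, le_refl _, by simp, fun _ _ _ => empty_subset _⟩

theorem two_verts {e : Sym2 V} (he : ¬ e.IsDiag) :
    (univ.filter (fun v => v ∈ e)).card = 2 := by
  induction e using Sym2.ind with
  | _ x y =>
    have hxy : x ≠ y := by simpa using he
    have : univ.filter (fun v => v ∈ s(x, y)) = {x, y} := by
      ext v; simp
    rw [this, card_pair hxy]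

theorem sum_swap (G : SimpleGraph V) (M : Finset (Sym2 V)) (hM : IsPerfMatching G M) (f : V → ℕ) :
    ∑ e ∈ M, ∑ v ∈ univ.filter (fun v => v ∈ e), f v = ∑ v, f v := by
  simp only [sum_filter]
  rw [sum_comm]
  apply sum_congr rfl
  intro v _
  rw [← sum_filter]
  obtain ⟨e, he, hu⟩ := hM.2 v
  have : M.filter (fun e => v ∈ e) = {e} := by
    ext g
    rw [mem_filter, mem_singleton]
    constructor
    · intro h; exact hu g h
    · rintro rfl; exact he
  rw [this, sum_singleton]

theorem pm_bound (G : SimpleGraph V) (n : ℕ) (hn : 1 ≤ n) (hV : Fintype.card V = 2 * n)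
    (M : Finset (Sym2 V)) (hM : IsPerfMatching G M) :
    ∃ T ⊆ M, (n : ℝ) ^ 2 ≤ (T.card : ℝ) * (G.edgeFinset.card : ℝ) ∧ M.card = n ∧
      IsForcing G M (M \ T) := by
  have hdiag : ∀ e ∈ M, ¬ e.IsDiag := fun e he => G.not_isDiag_of_mem_edgeSet (hM.1 e he)
  have hMc : M.card = n := by
    have h1 := sum_swap G M hM (fun _ => 1)
    have h2 : ∑ e ∈ M, ∑ v ∈ univ.filter (fun v => v ∈ e), 1 = ∑ e ∈ M, 2 := by
      apply sum_congr rfl
      intro e he
      rw [← card_eq_sum_ones, two_verts (hdiag e he)]
    rw [h2] at h1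
    simp only [sum_const, smul_eq_mul, card_univ, hV] at h1
    omega
  have hmin : ∀ e : Sym2 V, ∃ v ∈ e, ∀ w ∈ e, G.degree v ≤ G.degree w := by
    intro e
    induction e using Sym2.ind with
    | _ x y =>
      rcases le_total (G.degree x) (G.degree y) with h | h
      · refine ⟨x, Sym2.mem_mk_left x y, ?_⟩
        intro w hw
        rcases Sym2.mem_iff.1 hw with rfl | rfl
        · exact le_refl _
        · exact h
      · refine ⟨y, Sym2.mem_mk_right x y, ?_⟩
        intro w hw
        rcases Sym2.mem_iff.1 hw with rfl | rfl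
        · exact h
        · exact le_refl _
  choose a ha1 ha2 using hmin
  obtain ⟨T, hT, hTc, hTf⟩ := greedy G M hM a (fun e _ => ha1 e) _ M rfl (le_refl _)
  refine ⟨T, hT, ?_, hMc, sdiff_subset, ?_⟩
  · -- out degree versus degree
    have hdeg : ∀ e ∈ M, (out G a M e).card + 1 ≤ G.degree (a e) := by
      intro e he
      have h1 : ∀ g ∈ insert e (out G a M e), ∃ w, G.Adj (a e) w ∧ w ∈ g := by
        intro g hg
        rw [mem_insert] at hg
        rcases hg with rfl | hg
        · have h2 := ha1 g
          have h3 := hM.1 g he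
          obtain ⟨w, hw⟩ := h2
          refine ⟨w, ?_, ?_⟩
          · rw [hw] at h3; exact h3
          · exact hw ▸ Sym2.mem_mk_right _ _
        · exact (mem_filter.1 hg).2.2
      haveI : Nonempty V := ⟨a e⟩
      choose! w hw1 hw2 using h1
      have heN : e ∉ out G a M e := by
        intro h; exact (mem_filter.1 h).2.1 rfl
      rw [← card_insert_of_notMem heN, ← SimpleGraph.card_neighborFinset_eq_degree]
      apply card_le_card_of_injOn w
      · intro g hg
        rw [mem_coe, SimpleGraph.mem_neighborFinset]
        exact hw1 g hg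
      · intro g hg k hk hgk
        have hgM : g ∈ M := by
          rcases mem_insert.1 hg with rfl | h
          · exact he
          · exact (mem_filter.1 h).1
        have hkM : k ∈ M := by
          rcases mem_insert.1 hk with rfl | h
          · exact he
          · exact (mem_filter.1 h).1
        exact (hM.2 (w g)).unique ⟨hgM, hw2 g hg⟩ ⟨hkM, by rw [hgk]; exact hw2 k hk⟩
    have hsum : ∑ e ∈ M, G.degree (a e) ≤ G.edgeFinset.card := by
      have h1 := sum_swap G M hM (fun v => G.degree v)
      rw [G.sum_degrees_eq_twice_card_edges] at h1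
      have h2 : ∑ e ∈ M, 2 * G.degree (a e) ≤
          ∑ e ∈ M, ∑ v ∈ univ.filter (fun v => v ∈ e), G.degree v := by
        apply sum_le_sum
        intro e he
        calc 2 * G.degree (a e) = ∑ v ∈ univ.filter (fun v => v ∈ e), G.degree (a e) := by
              rw [sum_const, two_verts (hdiag e he), smul_eq_mul]
          _ ≤ _ := by
              apply sum_le_sum
              intro v hv
              exact ha2 e v (mem_filter.1 hv).2
      rw [h1, ← mul_sum] at h2
      omega
    have hE : (0 : ℝ) < G.edgeFinset.card := by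
      have : 0 < M.card := by omega
      obtain ⟨e, he⟩ := card_pos.1 this
      have : 0 < G.edgeFinset.card :=
        card_pos.2 ⟨e, SimpleGraph.mem_edgeFinset.2 (hM.1 e he)⟩
      exact_mod_cast this
    set E : ℝ := (G.edgeFinset.card : ℝ) with hEdef
    have hn' : (0 : ℝ) < n := by exact_mod_cast hn
    have hterm : ∀ e ∈ M, 2 * (n : ℝ) / E - (n : ℝ) ^ 2 / E ^ 2 * (G.degree (a e) : ℝ) ≤
        1 / (1 + ((out G a M e).card : ℝ)) := by
      intro e he
      have h1 : (1 : ℝ) + ((out G a M e).card : ℝ) ≤ G.degree (a e) := by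
        have := hdeg e he
        have h2 : (((out G a M e).card + 1 : ℕ) : ℝ) ≤ G.degree (a e) := by exact_mod_cast this
        push_cast at h2
        linarith
      have hd : (0 : ℝ) < G.degree (a e) := by
        have : (0 : ℝ) ≤ ((out G a M e).card : ℝ) := Nat.cast_nonneg _
        linarith
      have h2 : 1 / (G.degree (a e) : ℝ) ≤ 1 / (1 + ((out G a M e).card : ℝ)) := by
        have : (0 : ℝ) < 1 + ((out G a M e).card : ℝ) := by positivity
        gcongr
      refine le_trans ?_ h2
      rw [le_div_iff₀ hd]
      have h3 : (2 * (n : ℝ) / E - (n : ℝ) ^ 2 / E ^ 2 * (G.degree (a e) : ℝ)) *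
          (G.degree (a e) : ℝ) = 1 - (1 - (n : ℝ) / E * (G.degree (a e) : ℝ)) ^ 2 := by
        field_simp
        ring
      rw [h3]
      nlinarith [sq_nonneg (1 - (n : ℝ) / E * (G.degree (a e) : ℝ))]
    have h4 : ∑ e ∈ M, (2 * (n : ℝ) / E - (n : ℝ) ^ 2 / E ^ 2 * (G.degree (a e) : ℝ)) ≤
        (T.card : ℝ) := (sum_le_sum hterm).trans hTc
    rw [sum_sub_distrib, sum_const, ← mul_sum, hMc, nsmul_eq_mul] at h4
    have h5 : ((∑ e ∈ M, (G.degree (a e) : ℝ)) : ℝ) ≤ E := by
      rw [hEdef]; exact_mod_cast hsum
    have h6 : (n : ℝ) ^ 2 / E ^ 2 * (∑ e ∈ M, (G.degree (a e) : ℝ)) ≤ (n : ℝ) ^ 2 / E ^ 2 * E := by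
      gcongr
    have h7 : (n : ℝ) ^ 2 / E ^ 2 * E = (n : ℝ) ^ 2 / E := by
      field_simp
    have h8 : (n : ℝ) * (2 * n / E) = 2 * ((n : ℝ) ^ 2 / E) := by ring
    have h9 : (n : ℝ) ^ 2 / E ≤ T.card := by linarith
    rwa [div_le_iff₀ hE] at h9
  · intro M' hM' hs
    apply pm_eq hM hM'
    intro e he
    by_cases heT : e ∈ T
    · exact hTf M' hM' hs heT
    · exact hs (mem_sdiff.2 ⟨he, heT⟩)

/-- Every graph on `2 n` vertices with a perfect matching has at least `n ^ 2 / (n - F(G))` edges,
where `F(G) < n` is the maximum forcing number. -/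
theorem result : ∀ (V : Type) [Fintype V] (G : SimpleGraph V) (n : ℕ), 1 ≤ n →
    Fintype.card V = 2 * n → (∃ M, IsPerfMatching G M) →
    maxForcing G < n ∧
      (n : ℝ) ^ 2 / ((n : ℝ) - (maxForcing G : ℝ)) ≤ (G.edgeFinset.card : ℝ) := by
  intro V _ G n hn hV hex
  have hbdd : BddAbove {k | ∃ M, IsPerfMatching G M ∧ forcingNumber G M = k} := by
    have : {k | ∃ M, IsPerfMatching G M ∧ forcingNumber G M = k} ⊆
        Set.range (forcingNumber G) := by
      rintro k ⟨M, _, h⟩
      exact ⟨M, h⟩
    exact (Set.finite_range _).bddAbove.mono this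
  have hne : {k | ∃ M, IsPerfMatching G M ∧ forcingNumber G M = k}.Nonempty := by
    obtain ⟨M, hM⟩ := hex
    exact ⟨_, M, hM, rfl⟩
  obtain ⟨M, hM, hMk⟩ := Nat.sSup_mem hne hbdd
  obtain ⟨T, hT, hTc, hMc, hF⟩ := pm_bound G n hn hV M hM
  have hle : maxForcing G ≤ (M \ T).card := by
    have h1 : maxForcing G = forcingNumber G M := hMk.symm
    rw [h1]
    exact Nat.sInf_le ⟨_, hF, rfl⟩
  have hc : (M \ T).card + T.card = n := by
    rw [← hMc]; exact card_sdiff_add_card_eq_card hT
  have hn' : (0 : ℝ) < n := by exact_mod_cast hn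
  have hTpos : 0 < T.card := by
    by_contra h
    have : T.card = 0 := by omega
    rw [this] at hTc
    have : (0 : ℝ) < (n : ℝ) ^ 2 := by positivity
    simp at hTc
    nlinarith
  have hlt : maxForcing G < n := by omega
  refine ⟨hlt, ?_⟩
  have hlt' : (maxForcing G : ℝ) < n := by exact_mod_cast hlt
  rw [div_le_iff₀ (by linarith)]
  have h1 : (T.card : ℝ) ≤ (n : ℝ) - maxForcing G := by
    have : T.card + maxForcing G ≤ n := by omega
    have h2 : ((T.card + maxForcing G : ℕ) : ℝ) ≤ n := by exact_mod_cast this
    push_cast at h2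
    linarith
  have h0 : (0 : ℝ) ≤ (G.edgeFinset.card : ℝ) := Nat.cast_nonneg _
  nlinarith

end Pool.Agent.Results.MP_f5b231_co.ForcingEdgeBound
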